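import Pool.Agent.T6.H95.MB.Game

/-! Maker-Breaker domination game (`MP_374a5d_co`): the first move. -/

namespace H95.MB

variable {V : Type} [Fintype V] [DecidableEq V]

lemma firstP (G : SimpleGraph V) (π : Equiv.Perm V) (k : ℕ) (P C : Finset V) (y : V)
    (hP : Pairable G P) (hC : Closed G π C) (hd : Disjoint P C) (hy : y ∈ P)
    (hdom : ∀ w, w ∉ P → w ∉ C → G.Adj y w) (hcard : P.card + C.card ≤ 2 * k + 3) :
    WinsIn G (k + 1) ∅ ∅ := by
  obtain ⟨z, hz, hyz, hPz⟩ := hP.reply y hy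
  right
  refine ⟨y, by simp, by simp, ?_⟩
  refine second G π k (insert y ∅) ∅ ((P.erase y).erase z) C hPz hC ?_ ?_ ?_ ?_ ?_
  · exact Finset.disjoint_of_subset_left
      ((Finset.erase_subset _ _).trans (Finset.erase_subset _ _)) hd
  · intro w hw
    rw [Finset.mem_erase, Finset.mem_erase] at hw
    simp [hw.2.1]
  · intro w hw
    have : w ≠ y := by
      rintro rfl
      exact Finset.disjoint_left.1 hd hy hw
    simp [this]
  · intro w hw1 hw2
    by_cases hwP : w ∈ P
    · have h3 : w = z ∨ w = y := by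
        by_contra hcon
        rw [not_or] at hcon
        exact hw1 (Finset.mem_erase.2 ⟨hcon.1, Finset.mem_erase.2 ⟨hcon.2, hwP⟩⟩)
      rcases h3 with rfl | rfl
      · exact Or.inr ⟨y, Finset.mem_insert_self _ _, hyz⟩
      · exact Or.inl (Finset.mem_insert_self _ _)
    · exact Or.inr ⟨y, Finset.mem_insert_self _ _, hdom w hwP hw2⟩
  · have h1 : z ∈ P.erase y := Finset.mem_erase.2 ⟨hyz.ne.symm, hz⟩
    have h2 : 0 < (P.erase y).card := Finset.card_pos.2 ⟨z, h1⟩
    rw [Finset.card_erase_of_mem h1]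
    rw [Finset.card_erase_of_mem hy] at h2 ⊢
    omega

lemma firstC (G : SimpleGraph V) (π : Equiv.Perm V) (k : ℕ) (P C : Finset V) (x : V)
    (hP : Pairable G P) (hC : Closed G π C) (hd : Disjoint P C) (hx : x ∈ C)
    (hdom : ∀ w, w ∉ P → w ∉ C → G.Adj (π x) w) (hcard : P.card + C.card ≤ 2 * k + 3) :
    WinsIn G (k + 1) ∅ ∅ := by
  obtain ⟨Q, C', hQ, hC', hQC, hQs, hCs, hxQ, hxC', hyQ, hyC', hadj, hc⟩ := closed_reply hC x hx
  have hyC := (hC x hx).1
  right
  refine ⟨π x, by simp, by simp, ?_⟩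
  refine second G π k (insert (π x) ∅) ∅ (P ∪ Q) C' (hP.union hQ
    (Finset.disjoint_of_subset_right hQs hd)) hC' ?_ ?_ ?_ ?_ ?_
  · rw [Finset.disjoint_union_left]
    exact ⟨Finset.disjoint_of_subset_right hCs hd, hQC⟩
  · intro w hw
    have : w ≠ π x := by
      rintro rfl
      rcases Finset.mem_union.1 hw with hw | hw
      · exact Finset.disjoint_left.1 hd hw hyC
      · exact hyQ hw
    simp [this]
  · intro w hw
    have : w ≠ π x := by
      rintro rfl
      exact hyC' hw
    simp [this]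
  · intro w hw1 hw2
    rw [Finset.mem_union, not_or] at hw1
    by_cases hwC : w ∈ C
    · rcases hadj w hwC hw1.2 hw2 with rfl | h
      · exact Or.inl (Finset.mem_insert_self _ _)
      · exact Or.inr ⟨π x, Finset.mem_insert_self _ _, h⟩
    · exact Or.inr ⟨π x, Finset.mem_insert_self _ _, hdom w hw1.1 hwC⟩
  · have h1 := Finset.card_union_le P Q
    omega

theorem main (G : SimpleGraph V) (hiso : ∀ v, ∃ w, G.Adj v w) (hodd : Odd (Fintype.card V))
    (π : Equiv.Perm V) (x0 : V) (h : ∀ v, v ≠ x0 → G.Adj v (π v)) :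
    WinsIn G ((Fintype.card V - 1) / 2) ∅ ∅ := by
  have hn3 : 3 ≤ Fintype.card V := by
    obtain ⟨w, hw⟩ := hiso x0
    have : 1 < Fintype.card V := Fintype.one_lt_card_iff.2 ⟨x0, w, hw.ne⟩
    obtain ⟨t, ht⟩ := hodd
    omega
  obtain ⟨k, hk⟩ : ∃ k, Fintype.card V = 2 * k + 3 := by
    obtain ⟨t, ht⟩ := hodd
    exact ⟨t - 1, by omega⟩
  have hkk : (Fintype.card V - 1) / 2 = k + 1 := by omega
  rw [hkk]
  set N := Function.minimalPeriod π x0 with hN
  have hNpos : 0 < N := cyc_per π x0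
  have hinj := cyc_inj π x0
  rw [← hN] at hinj
  have hNper : π^[N] x0 = x0 := Function.iterate_minimalPeriod
  set c : ℕ → V := fun i => π^[i] x0 with hc
  have hcs : ∀ i, c (i + 1) = π (c i) := fun i => Function.iterate_succ_apply' π i x0
  have hinj' : ∀ i i' : ℕ, i < N → i' < N → c i = c i' → i = i' := fun i i' h1 h2 h3 =>
    hinj h1 h2 h3
  have hinj1 : ∀ i i' : ℕ, 1 ≤ i → 1 ≤ i' → i < N + 1 → i' < N + 1 → c i = c i' → i = i' := by
    intro i i' h1 h1' h2 h2' h3
    obtain ⟨a, rfl⟩ : ∃ a, i = a + 1 := ⟨i - 1, by omega⟩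
    obtain ⟨b, rfl⟩ : ∃ b, i' = b + 1 := ⟨i' - 1, by omega⟩
    rw [hcs, hcs] at h3
    have := hinj' a b (by omega) (by omega) (π.injective h3)
    omega
  have hadj : ∀ i, 1 ≤ i → i < N → G.Adj (c i) (c (i + 1)) := by
    intro i h1 h2
    rw [hcs]
    apply h
    intro h3
    have := hinj' i 0 h2 hNpos h3
    omega
  set R := (Finset.Ico 1 (N + 1)).image c with hR
  have hRmem : ∀ i, i ≤ N → c i ∈ R := by
    intro i hi
    rcases Nat.eq_zero_or_pos i with rfl | hpos
    · have : c 0 = c N := hNper.symm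
      rw [this]
      exact Finset.mem_image_of_mem c (Finset.mem_Ico.2 ⟨by omega, by omega⟩)
    · exact Finset.mem_image_of_mem c (Finset.mem_Ico.2 ⟨by omega, by omega⟩)
  have hRback : ∀ x, π x ∈ R → x ∈ R := by
    intro x hx
    obtain ⟨i, hi, h1⟩ := Finset.mem_image.1 hx
    rw [Finset.mem_Ico] at hi
    obtain ⟨a, rfl⟩ : ∃ a, i = a + 1 := ⟨i - 1, by omega⟩
    rw [hcs] at h1
    rw [← π.injective h1]
    exact hRmem a (by omega)
  have hx0R : x0 ∈ R := hRmem 0 (by omega)
  have hCcl : Closed G π (Finset.univ \ R) := by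
    intro w hw
    rw [Finset.mem_sdiff] at hw
    refine ⟨Finset.mem_sdiff.2 ⟨Finset.mem_univ _, fun h1 => hw.2 (hRback w h1)⟩, h w ?_⟩
    rintro rfl
    exact hw.2 hx0R
  obtain ⟨r, j, hr, hj⟩ : ∃ r j : ℕ, (r = 1 ∨ r = 2) ∧ N + 1 = r + 2 * j := by
    rcases Nat.even_or_odd' N with ⟨t, ht | ht⟩
    · exact ⟨1, t, Or.inl rfl, by omega⟩
    · exact ⟨2, t, Or.inr rfl, by omega⟩
  have hP : Pairable G ((Finset.Ico r (N + 1)).image c) := by
    rw [hj]
    refine chain_pairable G c j r ?_ ?_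
    · intro x hx y hy hxy
      rw [Set.mem_Ico] at hx hy
      exact hinj1 x y (by omega) (by omega) (by omega) (by omega) hxy
    · intro i h1 h2
      exact hadj i (by omega) (by omega)
  set P := (Finset.Ico r (N + 1)).image c with hPdef
  have hPR : P ⊆ R := Finset.image_subset_image (fun x hx => by
    rw [Finset.mem_Ico] at hx ⊢
    omega)
  have hdis : Disjoint P (Finset.univ \ R) :=
    Finset.disjoint_of_subset_left hPR Finset.disjoint_sdiff
  have hcard : P.card + (Finset.univ \ R).card ≤ 2 * k + 3 := by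
    rw [← Finset.card_union_of_disjoint hdis, ← hk]
    exact Finset.card_le_univ _
  rcases hr with rfl | rfl
  · have hyP : c 1 ∈ P := Finset.mem_image_of_mem c (Finset.mem_Ico.2 ⟨le_rfl, by omega⟩)
    refine firstP G π k P (Finset.univ \ R) (c 1) hP hCcl hdis hyP ?_ hcard
    intro w hw1 hw2
    exfalso
    exact hw2 (Finset.mem_sdiff.2 ⟨Finset.mem_univ _, hw1⟩)
  · obtain ⟨y, hy⟩ := hiso (c 1)
    have hout : ∀ w, w ∉ P → w ∉ Finset.univ \ R → w = c 1 := by
      intro w hw1 hw2
      have hwR : w ∈ R := by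
        by_contra h1
        exact hw2 (Finset.mem_sdiff.2 ⟨Finset.mem_univ _, h1⟩)
      obtain ⟨i, hi, rfl⟩ := Finset.mem_image.1 hwR
      rw [Finset.mem_Ico] at hi
      have : i = 1 := by
        by_contra hi1
        exact hw1 (Finset.mem_image_of_mem c (Finset.mem_Ico.2 ⟨by omega, hi.2⟩))
      rw [this]
    by_cases hyP : y ∈ P
    · refine firstP G π k P (Finset.univ \ R) y hP hCcl hdis hyP ?_ hcard
      intro w hw1 hw2
      rw [hout w hw1 hw2]
      exact hy.symm
    · have hyC : y ∈ Finset.univ \ R := by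
        by_contra h1
        exact hy.ne (hout y hyP h1).symm
      have hxC : π.symm y ∈ Finset.univ \ R := by
        rw [Finset.mem_sdiff]
        refine ⟨Finset.mem_univ _, fun h1 => ?_⟩
        rw [Finset.mem_sdiff] at hyC
        apply hyC.2
        obtain ⟨i, hi, h2⟩ := Finset.mem_image.1 h1
        rw [Finset.mem_Ico] at hi
        have h3 : y = c (i + 1) := by
          rw [hcs, h2, Equiv.apply_symm_apply]
        rcases Nat.lt_or_ge i N with hlt | hge
        · rw [h3]
          exact hRmem (i + 1) (by omega)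
        · have hiN : i = N := by omega
          have h4 : c i = c 0 := by
            rw [hiN]
            exact hNper
          rw [h3, hcs, h4, ← hcs]
          exact hRmem 1 (by omega)
      refine firstC G π k P (Finset.univ \ R) (π.symm y) hP hCcl hdis hxC ?_ hcard
      intro w hw1 hw2
      rw [hout w hw1 hw2, Equiv.apply_symm_apply]
      exact hy.symm

end H95.MB
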