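import Mathlib

/-! Maker-Breaker domination game (`MP_374a5d_co`): a dynamic pairing strategy on graphs with a
spanning subgraph of cycles, edges and one path. -/

namespace H95.MB

variable {V : Type} [Fintype V] [DecidableEq V]

/-- every vertex is in `D` or has a neighbour in `D` -/
def Dominating (G : SimpleGraph V) (D : Finset V) : Prop :=
  ∀ v, v ∈ D ∨ ∃ u ∈ D, G.Adj u v

/-- Dominator, to move, having picked `D` while Staller has picked `S`, can make the set of his
vertices dominating within his next `k` moves -/
def WinsIn (G : SimpleGraph V) : ℕ → Finset V → Finset V → Prop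
  | 0, D, _ => Dominating G D
  | k + 1, D, S => Dominating G D ∨ ∃ v, v ∉ D ∧ v ∉ S ∧
      (Dominating G (insert v D) ∨ ((∃ w, w ∉ insert v D ∧ w ∉ S) ∧
        ∀ w, w ∉ insert v D → w ∉ S → WinsIn G k (insert v D) (insert w S)))

/-- a disjoint union of edges -/
inductive Pairable (G : SimpleGraph V) : Finset V → Prop
  | empty : Pairable G ∅
  | add (a b : V) (U : Finset V) : a ∉ U → b ∉ U → G.Adj a b → Pairable G U →
      Pairable G (insert a (insert b U))

lemma Pairable.reply {G : SimpleGraph V} {P : Finset V} (h : Pairable G P) :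
    ∀ y ∈ P, ∃ z ∈ P, G.Adj y z ∧ Pairable G ((P.erase y).erase z) := by
  induction h with
  | empty => intro y hy; simp at hy
  | add a b U ha hb hab hU ih =>
    intro y hy
    have hne : a ≠ b := hab.ne
    rw [Finset.mem_insert, Finset.mem_insert] at hy
    by_cases h1 : y = a
    · subst h1
      refine ⟨b, by simp, hab, ?_⟩
      have e : ((insert y (insert b U)).erase y).erase b = U := by
        rw [Finset.erase_insert (by simp [hne, ha]), Finset.erase_insert hb]
      rw [e]
      exact hU
    · by_cases h2 : y = b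
      · subst h2
        refine ⟨a, by simp, hab.symm, ?_⟩
        have e : ((insert a (insert y U)).erase y).erase a = U := by
          rw [Finset.insert_comm, Finset.erase_insert (by simp [hne.symm, hb]),
            Finset.erase_insert ha]
        rw [e]
        exact hU
      · have hyU : y ∈ U := by tauto
        obtain ⟨z, hz, hyz, hP⟩ := ih y hyU
        have hza : z ≠ a := fun h => ha (h ▸ hz)
        have hzb : z ≠ b := fun h => hb (h ▸ hz)
        refine ⟨z, by simp [hz], hyz, ?_⟩
        have e : ((insert a (insert b U)).erase y).erase z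
            = insert a (insert b ((U.erase y).erase z)) := by
          ext x
          simp only [Finset.mem_erase, Finset.mem_insert]
          constructor
          · tauto
          · rintro (rfl | rfl | hx)
            · exact ⟨hza.symm, Ne.symm h1, Or.inl rfl⟩
            · exact ⟨hzb.symm, Ne.symm h2, Or.inr (Or.inl rfl)⟩
            · tauto
        rw [e]
        exact Pairable.add a b _ (by simp [ha]) (by simp [hb]) hab hP

lemma Pairable.union {G : SimpleGraph V} {P Q : Finset V} (h : Pairable G P) (hQ : Pairable G Q) :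
    Disjoint P Q → Pairable G (P ∪ Q) := by
  induction h with
  | empty => intro _; simpa using hQ
  | add a b U ha hb hab hU ih =>
    intro hd
    rw [Finset.disjoint_insert_left, Finset.disjoint_insert_left] at hd
    rw [Finset.insert_union, Finset.insert_union]
    exact Pairable.add a b _ (by simp [ha, hd.1]) (by simp [hb, hd.2.1]) hab (ih hd.2.2)

lemma chain_pairable (G : SimpleGraph V) (c : ℕ → V) : ∀ (j m : ℕ),
    Set.InjOn c (Set.Ico m (m + 2 * j)) →
    (∀ i, m ≤ i → i + 1 < m + 2 * j → G.Adj (c i) (c (i + 1))) →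
    Pairable G ((Finset.Ico m (m + 2 * j)).image c)
  | 0, m, _, _ => by simpa using Pairable.empty
  | j + 1, m, hinj, hadj => by
    have e : Finset.Ico m (m + 2 * (j + 1)) =
        insert m (insert (m + 1) (Finset.Ico (m + 2) (m + 2 + 2 * j))) := by
      ext x
      simp only [Finset.mem_Ico, Finset.mem_insert]
      omega
    rw [e, Finset.image_insert, Finset.image_insert]
    refine Pairable.add _ _ _ ?_ ?_ (hadj m le_rfl (by omega)) (chain_pairable G c j (m + 2) ?_ ?_)
    · intro hmem
      obtain ⟨i, hi, hc⟩ := Finset.mem_image.1 hmem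
      rw [Finset.mem_Ico] at hi
      have := hinj (Set.mem_Ico.2 ⟨by omega, by omega⟩) (Set.mem_Ico.2 ⟨by omega, by omega⟩) hc
      omega
    · intro hmem
      obtain ⟨i, hi, hc⟩ := Finset.mem_image.1 hmem
      rw [Finset.mem_Ico] at hi
      have := hinj (Set.mem_Ico.2 ⟨by omega, by omega⟩) (Set.mem_Ico.2 ⟨by omega, by omega⟩) hc
      omega
    · exact hinj.mono (fun x hx => by
        rw [Set.mem_Ico] at hx ⊢
        omega)
    · intro i h1 h2
      exact hadj i (by omega) (by omega)

/-- `C` is a union of cycles of `π`, all steps in `C` are edges -/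
def Closed (G : SimpleGraph V) (π : Equiv.Perm V) (C : Finset V) : Prop :=
  ∀ w ∈ C, π w ∈ C ∧ G.Adj w (π w)

lemma cyc_inj (π : Equiv.Perm V) (v : V) :
    Set.InjOn (fun i => π^[i] v) (Set.Iio (Function.minimalPeriod π v)) :=
  Function.iterate_injOn_Iio_minimalPeriod

lemma cyc_per (π : Equiv.Perm V) (v : V) : 0 < Function.minimalPeriod π v :=
  Function.minimalPeriod_pos_of_mem_periodicPts
    (Function.Injective.mem_periodicPts π.injective v)

lemma closed_reply {G : SimpleGraph V} {π : Equiv.Perm V} {C : Finset V} (hC : Closed G π C)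
    (w : V) (hw : w ∈ C) : ∃ Q C' : Finset V, Pairable G Q ∧ Closed G π C' ∧ Disjoint Q C' ∧
      Q ⊆ C ∧ C' ⊆ C ∧ w ∉ Q ∧ w ∉ C' ∧ π w ∉ Q ∧ π w ∉ C' ∧
      (∀ x ∈ C, x ∉ Q → x ∉ C' → x = π w ∨ G.Adj (π w) x) ∧ Q.card + C'.card + 2 ≤ C.card := by
  set N := Function.minimalPeriod π w with hN
  have hNpos : 0 < N := cyc_per π w
  have hinj := cyc_inj π w
  rw [← hN] at hinj
  have hmem : ∀ i, π^[i] w ∈ C := by
    intro i
    induction i with
    | zero => exact hw
    | succ i ih =>
      rw [Function.iterate_succ_apply']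
      exact (hC _ ih).1
  have hNper : π^[N] w = w := Function.iterate_minimalPeriod
  have hN2 : 2 ≤ N := by
    by_contra hlt
    have hN1 : N = 1 := by omega
    rw [hN1] at hNper
    exact (hC w hw).2.ne hNper.symm
  obtain ⟨r, j, hr, hj, hrN⟩ : ∃ r j : ℕ, (r = 2 ∨ r = 3) ∧ N = r + 2 * j ∧ r ≤ N := by
    rcases Nat.even_or_odd' N with ⟨t, ht | ht⟩
    · exact ⟨2, t - 1, Or.inl rfl, by omega, by omega⟩
    · exact ⟨3, t - 1, Or.inr rfl, by omega, by omega⟩
  set c : ℕ → V := fun i => π^[i] w with hc
  set R := (Finset.range N).image c with hR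
  set Q := (Finset.Ico r N).image c with hQ
  have hQR : Q ⊆ R := by
    apply Finset.image_subset_image
    intro x hx
    rw [Finset.mem_Ico] at hx
    exact Finset.mem_range.2 hx.2
  have hRC : R ⊆ C := by
    intro x hx
    obtain ⟨i, _, rfl⟩ := Finset.mem_image.1 hx
    exact hmem i
  have hinj' : ∀ i i' : ℕ, i < N → i' < N → c i = c i' → i = i' := fun i i' h1 h2 h3 =>
    hinj h1 h2 h3
  have hc0 : c 0 = w := rfl
  have hc1 : c 1 = π w := rfl
  have hnQ : ∀ i, i < r → c i ∉ Q := by
    intro i hi hmemQ
    obtain ⟨i', hi', h⟩ := Finset.mem_image.1 hmemQ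
    rw [Finset.mem_Ico] at hi'
    have := hinj' i' i hi'.2 (by omega) h
    omega
  have hR0 : c 0 ∈ R := Finset.mem_image_of_mem _ (Finset.mem_range.2 (by omega))
  have hR1 : c 1 ∈ R := Finset.mem_image_of_mem _ (Finset.mem_range.2 (by omega))
  have hr2 : 2 ≤ r := by omega
  refine ⟨Q, C \ R, ?_, ?_, ?_, hQR.trans hRC, Finset.sdiff_subset, ?_, ?_, ?_, ?_, ?_, ?_⟩
  · rw [hQ]
    have hNr : N = r + 2 * j := hj
    rw [hNr]
    refine chain_pairable G c j r ?_ ?_
    · intro x hx y hy hxy
      rw [Set.mem_Ico] at hx hy
      exact hinj' x y (by omega) (by omega) hxy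
    · intro i _ _
      have := (hC _ (hmem i)).2
      show G.Adj (π^[i] w) (π^[i + 1] w)
      rw [Function.iterate_succ_apply']
      exact this
  · intro x hx
    rw [Finset.mem_sdiff] at hx
    refine ⟨?_, (hC x hx.1).2⟩
    rw [Finset.mem_sdiff]
    refine ⟨(hC x hx.1).1, fun hxR => hx.2 ?_⟩
    obtain ⟨i, hi, h⟩ := Finset.mem_image.1 hxR
    rw [Finset.mem_range] at hi
    rcases Nat.eq_zero_or_pos i with hi0 | hipos
    · have h1 : π (π^[N - 1] w) = π x := by
        rw [← Function.iterate_succ_apply' π, show (N - 1).succ = N by omega, hNper, ← h, hi0]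
        rfl
      have h2 : π^[N - 1] w = x := π.injective h1
      rw [← h2]
      exact Finset.mem_image_of_mem c (Finset.mem_range.2 (by omega))
    · have h1 : π (π^[i - 1] w) = π x := by
        rw [← Function.iterate_succ_apply' π, show (i - 1).succ = i by omega]
        exact h
      have h2 : π^[i - 1] w = x := π.injective h1
      rw [← h2]
      exact Finset.mem_image_of_mem c (Finset.mem_range.2 (by omega))
  · exact Finset.disjoint_of_subset_left hQR Finset.disjoint_sdiff
  · exact hnQ 0 (by omega)
  · intro h
    exact (Finset.mem_sdiff.1 h).2 hR0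
  · exact hnQ 1 (by omega)
  · intro h
    exact (Finset.mem_sdiff.1 h).2 hR1
  · intro x hx hxQ hxC
    have hxR : x ∈ R := by
      by_contra hxR
      exact hxC (Finset.mem_sdiff.2 ⟨hx, hxR⟩)
    obtain ⟨i, hi, rfl⟩ := Finset.mem_image.1 hxR
    rw [Finset.mem_range] at hi
    have hir : i < r := by
      by_contra hge
      exact hxQ (Finset.mem_image_of_mem c (Finset.mem_Ico.2 ⟨by omega, hi⟩))
    have hi3 : i = 0 ∨ i = 1 ∨ i = 2 := by omega
    rcases hi3 with rfl | rfl | rfl
    · right
      exact (hC w hw).2.symm
    · left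
      rfl
    · right
      exact (hC (π w) (hC w hw).1).2
  · have h1 : Q.card = N - r := by
      rw [hQ, Finset.card_image_of_injOn, Nat.card_Ico]
      intro x hx y hy hxy
      rw [Finset.mem_coe, Finset.mem_Ico] at hx hy
      exact hinj' x y hx.2 hy.2 hxy
    have h2 : R.card = N := by
      rw [hR, Finset.card_image_of_injOn, Finset.card_range]
      intro x hx y hy hxy
      rw [Finset.mem_coe, Finset.mem_range] at hx hy
      exact hinj' x y hx hy hxy
    have h3 : (C \ R).card = C.card - R.card := Finset.card_sdiff_of_subset hRC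
    have h4 : R.card ≤ C.card := Finset.card_le_card hRC
    omega

/-- after a move of Dominator all vertices outside `P ∪ C` are dominated -/
lemma second (G : SimpleGraph V) (π : Equiv.Perm V) : ∀ (k : ℕ) (D S P C : Finset V),
    Pairable G P → Closed G π C → Disjoint P C → (∀ w ∈ P, w ∉ D ∧ w ∉ S) →
    (∀ w ∈ C, w ∉ D ∧ w ∉ S) → (∀ w, w ∉ P → w ∉ C → w ∈ D ∨ ∃ u ∈ D, G.Adj u w) →
    P.card + C.card ≤ 2 * k + 1 →
    Dominating G D ∨ ((∃ w, w ∉ D ∧ w ∉ S) ∧ ∀ w, w ∉ D → w ∉ S → WinsIn G k D (insert w S)) := by
  intro k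
  induction k with
  | zero =>
    intro D S P C hP hC _ _ _ hdom hcard
    left
    have hP0 : P = ∅ := by
      by_contra hne
      obtain ⟨y, hy⟩ := Finset.nonempty_iff_ne_empty.2 hne
      obtain ⟨z, hz, hyz, _⟩ := hP.reply y hy
      have : ({y, z} : Finset V) ⊆ P := by
        intro x hx
        rw [Finset.mem_insert, Finset.mem_singleton] at hx
        rcases hx with rfl | rfl
        · exact hy
        · exact hz
      have h2 := Finset.card_le_card this
      rw [Finset.card_pair hyz.ne] at h2
      omega
    have hC0 : C = ∅ := by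
      by_contra hne
      obtain ⟨y, hy⟩ := Finset.nonempty_iff_ne_empty.2 hne
      have : ({y, π y} : Finset V) ⊆ C := by
        intro x hx
        rw [Finset.mem_insert, Finset.mem_singleton] at hx
        rcases hx with rfl | rfl
        · exact hy
        · exact (hC y hy).1
      have h2 := Finset.card_le_card this
      rw [Finset.card_pair (hC y hy).2.ne] at h2
      omega
    subst hP0
    subst hC0
    intro v
    exact hdom v (by simp) (by simp)
  | succ k ih =>
    intro D S P C hP hC hd hPf hCf hdom hcard
    by_cases hE : P = ∅ ∧ C = ∅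
    · left
      obtain ⟨h1, h2⟩ := hE
      subst h1
      subst h2
      intro v
      exact hdom v (by simp) (by simp)
    · right
      -- the two kinds of answers
      have ansP : ∀ w0 y : V, y ∈ P → y ≠ w0 → (w0 ∈ P → G.Adj y w0 ∧
          Pairable G ((P.erase y).erase w0)) → w0 ∉ C → w0 ∉ D → w0 ∉ S →
          WinsIn G (k + 1) D (insert w0 S) := by
        intro w0 y hy hyw hw0P hw0C hw0D hw0S
        obtain ⟨z, hz, hyz, hPz⟩ : ∃ z ∈ P, G.Adj y z ∧ Pairable G ((P.erase y).erase z) ∧
            (w0 ∈ P → z = w0) := by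
          by_cases hw : w0 ∈ P
          · exact ⟨w0, hw, (hw0P hw).1, (hw0P hw).2, fun _ => rfl⟩
          · obtain ⟨z, hz, h1, h2⟩ := hP.reply y hy
            exact ⟨z, hz, h1, h2, fun h => absurd h hw⟩
        obtain ⟨hPz, hzw⟩ := hPz
        right
        refine ⟨y, (hPf y hy).1, ?_, ?_⟩
        · rw [Finset.mem_insert, not_or]
          exact ⟨hyw, (hPf y hy).2⟩
        · refine ih (insert y D) (insert w0 S) ((P.erase y).erase z) C hPz hC ?_ ?_ ?_ ?_ ?_
          · exact Finset.disjoint_of_subset_left
              ((Finset.erase_subset _ _).trans (Finset.erase_subset _ _)) hd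
          · intro w hw
            rw [Finset.mem_erase, Finset.mem_erase] at hw
            rw [Finset.mem_insert, Finset.mem_insert, not_or, not_or]
            refine ⟨⟨hw.2.1, (hPf w hw.2.2).1⟩, ?_, (hPf w hw.2.2).2⟩
            rintro rfl
            exact hw.1 (hzw hw.2.2).symm
          · intro w hw
            rw [Finset.mem_insert, Finset.mem_insert, not_or, not_or]
            refine ⟨⟨?_, (hCf w hw).1⟩, ?_, (hCf w hw).2⟩
            · rintro rfl
              exact Finset.disjoint_left.1 hd hy hw
            · rintro rfl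
              exact hw0C hw
          · intro w hw1 hw2
            by_cases hwP : w ∈ P
            · have h3 : w = z ∨ w = y := by
                by_contra hcon
                rw [not_or] at hcon
                exact hw1 (Finset.mem_erase.2 ⟨hcon.1, Finset.mem_erase.2 ⟨hcon.2, hwP⟩⟩)
              rcases h3 with rfl | rfl
              · exact Or.inr ⟨y, Finset.mem_insert_self _ _, hyz⟩
              · exact Or.inl (Finset.mem_insert_self _ _)
            · rcases hdom w hwP hw2 with h | ⟨u, hu, h⟩
              · exact Or.inl (Finset.mem_insert_of_mem h)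
              · exact Or.inr ⟨u, Finset.mem_insert_of_mem hu, h⟩
          · have h1 : z ∈ P.erase y := Finset.mem_erase.2 ⟨hyz.ne.symm, hz⟩
            have h2 : 0 < (P.erase y).card := Finset.card_pos.2 ⟨z, h1⟩
            rw [Finset.card_erase_of_mem h1]
            rw [Finset.card_erase_of_mem hy] at h2 ⊢
            omega
      have ansC : ∀ w0 x : V, x ∈ C → (w0 ∈ C → w0 = x) → w0 ∉ P → w0 ∉ D → w0 ∉ S →
          WinsIn G (k + 1) D (insert w0 S) := by
        intro w0 x hx hw0x hw0P hw0D hw0S
        obtain ⟨Q, C', hQ, hC', hQC, hQs, hCs, hxQ, hxC', hyQ, hyC', hadj, hc⟩ :=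
          closed_reply hC x hx
        have hyC := (hC x hx).1
        right
        refine ⟨π x, (hCf _ hyC).1, ?_, ?_⟩
        · rw [Finset.mem_insert, not_or]
          refine ⟨?_, (hCf _ hyC).2⟩
          intro h
          have h1 := hw0x (h ▸ hyC)
          exact (hC x hx).2.ne (h1 ▸ h.symm)
        · refine ih (insert (π x) D) (insert w0 S) (P ∪ Q) C' (hP.union hQ
            (Finset.disjoint_of_subset_right hQs hd)) hC' ?_ ?_ ?_ ?_ ?_
          · rw [Finset.disjoint_union_left]
            exact ⟨Finset.disjoint_of_subset_right hCs hd, hQC⟩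
          · intro w hw
            rw [Finset.mem_insert, Finset.mem_insert, not_or, not_or]
            rcases Finset.mem_union.1 hw with hw | hw
            · refine ⟨⟨?_, (hPf w hw).1⟩, ?_, (hPf w hw).2⟩
              · rintro rfl
                exact Finset.disjoint_left.1 hd hw hyC
              · rintro rfl
                exact hw0P hw
            · refine ⟨⟨?_, (hCf w (hQs hw)).1⟩, ?_, (hCf w (hQs hw)).2⟩
              · rintro rfl
                exact hyQ hw
              · rintro rfl
                exact hxQ (hw0x (hQs hw) ▸ hw)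
          · intro w hw
            rw [Finset.mem_insert, Finset.mem_insert, not_or, not_or]
            refine ⟨⟨?_, (hCf w (hCs hw)).1⟩, ?_, (hCf w (hCs hw)).2⟩
            · rintro rfl
              exact hyC' hw
            · rintro rfl
              exact hxC' (hw0x (hCs hw) ▸ hw)
          · intro w hw1 hw2
            rw [Finset.mem_union, not_or] at hw1
            by_cases hwC : w ∈ C
            · rcases hadj w hwC hw1.2 hw2 with rfl | h
              · exact Or.inl (Finset.mem_insert_self _ _)
              · exact Or.inr ⟨π x, Finset.mem_insert_self _ _, h⟩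
            · rcases hdom w hw1.1 hwC with h | ⟨u, hu, h⟩
              · exact Or.inl (Finset.mem_insert_of_mem h)
              · exact Or.inr ⟨u, Finset.mem_insert_of_mem hu, h⟩
          · have h1 := Finset.card_union_le P Q
            omega
      constructor
      · by_cases hP0 : P = ∅
        · have hC0 : C ≠ ∅ := fun h => hE ⟨hP0, h⟩
          obtain ⟨y, hy⟩ := Finset.nonempty_iff_ne_empty.2 hC0
          exact ⟨y, hCf y hy⟩
        · obtain ⟨y, hy⟩ := Finset.nonempty_iff_ne_empty.2 hP0
          exact ⟨y, hPf y hy⟩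
      · intro w0 hw0D hw0S
        by_cases hwP : w0 ∈ P
        · obtain ⟨z, hz, hyz, hPz⟩ := hP.reply w0 hwP
          refine ansP w0 z hz hyz.ne.symm (fun _ => ⟨hyz.symm, ?_⟩) ?_ hw0D hw0S
          · rw [Finset.erase_right_comm]
            exact hPz
          · exact fun h => Finset.disjoint_left.1 hd hwP h
        · by_cases hwC : w0 ∈ C
          · exact ansC w0 w0 hwC (fun _ => rfl) hwP hw0D hw0S
          · by_cases hP0 : P = ∅
            · have hC0 : C ≠ ∅ := fun h => hE ⟨hP0, h⟩
              obtain ⟨y, hy⟩ := Finset.nonempty_iff_ne_empty.2 hC0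
              exact ansC w0 y hy (fun h => absurd h hwC) hwP hw0D hw0S
            · obtain ⟨y, hy⟩ := Finset.nonempty_iff_ne_empty.2 hP0
              refine ansP w0 y hy ?_ (fun h => absurd h hwP) hwC hw0D hw0S
              rintro rfl
              exact hwP hy

end H95.MB
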