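import Pool.Agent.T6.H95.MB.First

/-! Maker-Breaker domination game (`MP_374a5d_co`): the permutation from Hall's theorem. -/

namespace H95.MB

variable {V : Type} [Fintype V] [DecidableEq V]

lemma exists_perm (G : SimpleGraph V) (v1 : V)
    (h : ∀ A N : Finset V, (∀ w, w ∈ N ↔ ∃ v ∈ A, G.Adj v w) → A.card ≤ N.card + 1) :
    ∃ (π : Equiv.Perm V) (x0 : V), ∀ v, v ≠ x0 → G.Adj v (π v) := by
  classical
  let t : V → Finset (Option V) := fun v =>
    insert none ((Finset.univ.filter (fun w => G.Adj v w)).image some)
  have ht : ∀ s : Finset V, s.card ≤ (s.biUnion t).card := by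
    intro s
    rcases s.eq_empty_or_nonempty with rfl | ⟨v, hv⟩
    · simp
    · set N : Finset V := Finset.univ.filter (fun w => ∃ v ∈ s, G.Adj v w) with hN
      have h1 := h s N (by intro w; simp [hN])
      have h2 : insert none (N.image some) ⊆ s.biUnion t := by
        intro o ho
        rw [Finset.mem_insert] at ho
        rw [Finset.mem_biUnion]
        rcases ho with rfl | ho
        · exact ⟨v, hv, Finset.mem_insert_self _ _⟩
        · obtain ⟨w, hw, rfl⟩ := Finset.mem_image.1 ho
          obtain ⟨-, v', hv', hadj⟩ := Finset.mem_filter.1 hw
          refine ⟨v', hv', Finset.mem_insert_of_mem (Finset.mem_image_of_mem some ?_)⟩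
          exact Finset.mem_filter.2 ⟨Finset.mem_univ _, hadj⟩
      have h3 : (insert none (N.image some)).card = N.card + 1 := by
        rw [Finset.card_insert_of_notMem (by simp),
          Finset.card_image_of_injective _ (Option.some_injective V)]
      have h4 := Finset.card_le_card h2
      omega
  obtain ⟨f, hf, hft⟩ := (Finset.all_card_le_biUnion_card_iff_exists_injective t).1 ht
  have hft' : ∀ v w, f v = some w → G.Adj v w := by
    intro v w hw
    have h1 := hft v
    rw [hw] at h1
    simpa [t] using h1
  obtain ⟨o, ho⟩ : ∃ o, ∀ v, f v ≠ o := by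
    by_contra hcon
    push_neg at hcon
    have hsurj : Function.Surjective f := hcon
    have h1 := Fintype.card_le_of_surjective f hsurj
    rw [Fintype.card_option] at h1
    omega
  let w0 : V := o.getD v1
  have hg : Function.Injective (fun v => (f v).getD w0) := by
    intro a b hab
    simp only at hab
    cases ha : f a with
    | none =>
      cases hb : f b with
      | none => exact hf (ha.trans hb.symm)
      | some w =>
        exfalso
        rw [ha, hb] at hab
        cases hoo : o with
        | none => exact ho a (ha.trans hoo.symm)
        | some w' =>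
          have h1 : w0 = w' := by simp [w0, hoo]
          apply ho b
          rw [hb, hoo]
          simp only [Option.getD_none, Option.getD_some] at hab
          rw [← hab, h1]
    | some w =>
      cases hb : f b with
      | none =>
        exfalso
        rw [ha, hb] at hab
        cases hoo : o with
        | none => exact ho b (hb.trans hoo.symm)
        | some w' =>
          have h1 : w0 = w' := by simp [w0, hoo]
          apply ho a
          rw [ha, hoo]
          simp only [Option.getD_none, Option.getD_some] at hab
          rw [hab, h1]
      | some w' =>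
        rw [ha, hb] at hab
        simp only [Option.getD_some] at hab
        exact hf (by rw [ha, hb, hab])
  let π : Equiv.Perm V := Equiv.ofBijective _ (Finite.injective_iff_bijective.1 hg)
  have hπ : ∀ v, π v = (f v).getD w0 := fun v => rfl
  obtain ⟨x0, hx0⟩ : ∃ x0, ∀ v, v ≠ x0 → f v ≠ none := by
    by_cases hex : ∃ x0, f x0 = none
    · obtain ⟨x0, hx0⟩ := hex
      exact ⟨x0, fun v hv hvn => hv (hf (hvn.trans hx0.symm))⟩
    · exact ⟨v1, fun v _ hvn => hex ⟨v, hvn⟩⟩
  refine ⟨π, x0, fun v hv => ?_⟩
  obtain ⟨w, hw⟩ := Option.ne_none_iff_exists'.1 (hx0 v hv)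
  rw [hπ, hw]
  exact hft' v w hw

end H95.MB
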