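import Pool.Agent.T6.H95.MB.Hall

/-! Maker-Breaker domination game (`MP_374a5d_co`): independent sets are enough. -/

namespace H95.MB

variable {V : Type} [Fintype V] [DecidableEq V]

lemma all_of_indep (G : SimpleGraph V)
    (h : ∀ A N : Finset V, (∀ v ∈ A, ∀ w ∈ A, ¬ G.Adj v w) →
      (∀ w, w ∈ N ↔ ∃ v ∈ A, G.Adj v w) → A.card ≤ N.card + 1)
    (A N : Finset V) (hN : ∀ w, w ∈ N ↔ ∃ v ∈ A, G.Adj v w) : A.card ≤ N.card + 1 := by
  classical
  set I := A.filter (fun v => v ∉ N) with hI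
  set NI := Finset.univ.filter (fun w => ∃ v ∈ I, G.Adj v w) with hNI
  have h1 : I.card ≤ NI.card + 1 := by
    refine h I NI ?_ ?_
    · intro v hv w hw hvw
      rw [hI, Finset.mem_filter] at hv hw
      exact hw.2 ((hN w).2 ⟨v, hv.1, hvw⟩)
    · intro w
      simp [hNI]
  have h2 : NI ⊆ N := by
    intro w hw
    obtain ⟨-, v, hv, hvw⟩ := Finset.mem_filter.1 hw
    rw [hI, Finset.mem_filter] at hv
    exact (hN w).2 ⟨v, hv.1, hvw⟩
  have h3 : A \ I ⊆ N := by
    intro v hv
    rw [Finset.mem_sdiff, hI, Finset.mem_filter] at hv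
    by_contra hvN
    exact hv.2 ⟨hv.1, hvN⟩
  have h4 : Disjoint (A \ I) NI := by
    rw [Finset.disjoint_left]
    intro w hw1 hw2
    obtain ⟨-, v, hv, hvw⟩ := Finset.mem_filter.1 hw2
    rw [hI, Finset.mem_filter] at hv
    exact hv.2 ((hN v).2 ⟨w, (Finset.mem_sdiff.1 hw1).1, hvw.symm⟩)
  have h5 : (A \ I).card + NI.card ≤ N.card := by
    rw [← Finset.card_union_of_disjoint h4]
    exact Finset.card_le_card (Finset.union_subset h3 h2)
  have h6 : (A \ I).card + I.card = A.card := by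
    rw [Finset.card_sdiff_add_card_eq_card (Finset.filter_subset _ _)]
  omega

end H95.MB
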